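import Pool.Agent.Work.MP_64ea0f_cs.InterfaceG1

set_option autoImplicit false

/-! # Block LIN: lines of parallel roots -/

namespace Pool.CS.LINh40

open Pool.CS

/-- combinatorial core: a closed discrete subset of the line -/
lemma line {S : Set ℝ} (h0 : (0 : ℝ) ∈ S) (hcl : ∀ t ∈ S, ∀ t' ∈ S, 2 * t - t' ∈ S)
    (hfin : ∀ T : ℝ, {t | t ∈ S ∧ |t| ≤ T}.Finite) (hne : ∃ t ∈ S, t ≠ 0) :
    ∃ c : ℝ, 0 < c ∧ ∀ t : ℝ, t ∈ S ↔ ∃ i : ℤ, t = i * c := by
  have hneg : ∀ t ∈ S, -t ∈ S := by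
    intro t ht
    have := hcl 0 h0 t ht
    simpa using this
  obtain ⟨t₀, ht₀, ht₀0⟩ := hne
  set F : Set ℝ := {t | t ∈ S ∧ 0 < t ∧ t ≤ |t₀|} with hF
  have hFfin : F.Finite := by
    refine (hfin |t₀|).subset ?_
    rintro t ⟨h1, h2, h3⟩
    exact ⟨h1, by rwa [abs_of_pos h2]⟩
  have habs : ∀ t ∈ S, |t| ∈ S := by
    intro t ht
    rcases abs_choice t with h | h
    · rwa [h]
    · rw [h]; exact hneg t ht
  have hFne : F.Nonempty := ⟨|t₀|, habs _ ht₀, abs_pos.mpr ht₀0, le_refl _⟩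
  obtain ⟨c, hc, hmin⟩ := Set.exists_min_image F id hFfin hFne
  obtain ⟨hcS, hc0, hct⟩ := hc
  have hmin' : ∀ t ∈ S, 0 < t → c ≤ t := by
    intro t ht h0
    by_cases h : t ≤ |t₀|
    · exact hmin t ⟨ht, h0, h⟩
    · push Not at h
      linarith
  have hnat : ∀ n : ℕ, (n : ℝ) * c ∈ S ∧ ((n : ℝ) + 1) * c ∈ S := by
    intro n
    induction n with
    | zero => simpa using ⟨h0, hcS⟩
    | succ n ih =>
      push_cast
      refine ⟨ih.2, ?_⟩
      have := hcl _ ih.2 _ ih.1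
      have h : 2 * (((n : ℝ) + 1) * c) - (n : ℝ) * c = ((n : ℝ) + 1 + 1) * c := by ring
      rwa [h] at this
  have hint : ∀ i : ℤ, (i : ℝ) * c ∈ S := by
    intro i
    obtain ⟨n, hn | hn⟩ := i.eq_nat_or_neg
    · rw [hn]; exact_mod_cast (hnat n).1
    · rw [hn]
      have := hneg _ (hnat n).1
      push_cast
      rwa [neg_mul]
  have hsh : ∀ t ∈ S, t + 2 * c ∈ S := by
    intro t ht
    have := hcl c hcS _ (hneg t ht)
    have h : 2 * c - -t = t + 2 * c := by ring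
    rwa [h] at this
  have hshn : ∀ n : ℕ, ∀ t ∈ S, t + 2 * (n : ℝ) * c ∈ S := by
    intro n
    induction n with
    | zero => intro t ht; simpa using ht
    | succ n ih =>
      intro t ht
      have := hsh _ (ih t ht)
      push_cast
      have h : t + 2 * (n : ℝ) * c + 2 * c = t + 2 * ((n : ℝ) + 1) * c := by ring
      rwa [h] at this
  have hshi : ∀ i : ℤ, ∀ t ∈ S, t + 2 * (i : ℝ) * c ∈ S := by
    intro i t ht
    obtain ⟨n, hn | hn⟩ := i.eq_nat_or_neg
    · rw [hn]; exact_mod_cast hshn n t ht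
    · rw [hn]
      have := hneg _ (hshn n _ (hneg t ht))
      push_cast
      have h : -(-t + 2 * (n : ℝ) * c) = t + 2 * -(n : ℝ) * c := by ring
      rwa [h] at this
  refine ⟨c, hc0, fun t => ⟨fun ht => ?_, fun ⟨i, hi⟩ => hi ▸ hint i⟩⟩
  set i : ℤ := round (t / (2 * c)) with hi
  have h1 : |t / (2 * c) - i| ≤ 1 / 2 := abs_sub_round _
  have h2 : t + 2 * ((-i : ℤ) : ℝ) * c ∈ S := hshi (-i) t ht
  set t' := t + 2 * ((-i : ℤ) : ℝ) * c with ht'
  have h3 : |t'| ≤ c := by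
    have h4 : t' = (2 * c) * (t / (2 * c) - i) := by
      rw [ht']; push_cast; field_simp; ring
    rw [h4, abs_mul, abs_of_pos (by linarith : (0 : ℝ) < 2 * c)]
    nlinarith
  have h5 : t = t' + 2 * (i : ℝ) * c := by rw [ht']; push_cast; ring
  by_cases h6 : t' = 0
  · refine ⟨2 * i, ?_⟩
    rw [h5, h6]; push_cast; ring
  · have h7 := hmin' _ (habs _ h2) (abs_pos.mpr h6)
    have h8 : |t'| = c := le_antisymm h3 h7
    rcases (abs_eq hc0.le).mp h8 with h9 | h9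
    · refine ⟨2 * i + 1, ?_⟩
      rw [h5, h9]; push_cast; ring
    · refine ⟨2 * i - 1, ?_⟩
      rw [h5, h9]; push_cast; ring

end Pool.CS.LINh40

namespace Pool.CS

open Pool.CS.LINh40

theorem lin_thm : Stmt_BAS → Stmt_SGN → Stmt_PAR → Stmt_HGT → Stmt_CSU → Stmt_PSD → Stmt_SAV →
    Stmt_DRS → Stmt_LIN := by
  intro hBAS hSGN hPAR hHGT _ _ hSAV hDRS D u hu
  obtain ⟨Bs, Bl, Bk, Bsum, Bρ, B1, eRt, ρRt, negRt, rfv, rf2, rfconj, rfneg, rfe, rfinj, ρinj⟩ :=
    hBAS D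
  obtain ⟨sgn, sgn2, zero, ePs, -⟩ := hSGN D
  obtain ⟨s1, s2, s3, s4, s5, s6, s7, s8, s9, s10⟩ := (hSAV D).1 u hu
  obtain ⟨-, -, d3⟩ := hDRS D u hu
  obtain ⟨-, huu, hht, hconn⟩ := hu
  have hadd : ∀ (v v' w : D.V) (t : ℝ), D.B (v + t • v') w = D.B v w + t * D.B v' w := by
    intro v v' w t
    have := Bl 1 t v v' w
    simpa using this
  have haddr : ∀ (v v' w : D.V) (t : ℝ), D.B w (v + t • v') = D.B w v + t * D.B w v' := by
    intro v v' w t
    rw [Bs w, hadd, Bs v, Bs v']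
  have hline : ∀ φ ∈ D.Rt, D.In (D.sp u) φ → D.B u φ = 0 ∧ D.B φ u = 0 := by
    intro φ _ h
    exact ⟨s5 φ h, by rw [Bs]; exact s5 φ h⟩
  -- the reflection identity
  have hcl : ∀ φ ∈ D.Rt, D.In (D.sp u) φ → ∀ t t' : ℝ, φ + t • u ∈ D.Rt → φ + t' • u ∈ D.Rt →
      φ + (2 * t - t') • u ∈ D.Rt := by
    intro φ hφ hin t t' ht ht'
    obtain ⟨h1, h2⟩ := hline φ hφ hin
    have h3 := negRt _ (ρRt _ ht' (D.rf (φ + t • u)))
    rw [rfv _ ht] at h3
    have h4 : D.B (φ + t' • u) (φ + t • u) = 1 := by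
      rw [hadd, haddr, haddr, B1 φ hφ, h2, h1, huu]
      ring
    rw [h4] at h3
    convert h3 using 1
    module
  have htr : ∀ γ ∈ D.Rt, D.In (D.sp u) γ → ∀ t : ℝ, γ + t • u ∈ D.Rt → ∀ φ ∈ D.Rt,
      D.In (D.sp u) φ → φ + (2 * t * D.B φ γ) • u ∈ D.Rt := by
    intro γ hγ hinγ t ht φ hφ hinφ
    obtain ⟨h1, h2⟩ := hline γ hγ hinγ
    obtain ⟨h3, h4⟩ := hline φ hφ hinφ
    have h5 := ρRt _ (ρRt _ hφ (D.rf γ)) (D.rf (γ + t • u))
    rw [rfv _ ht, rfv _ hγ] at h5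
    have h6 : D.B (φ - (2 * D.B φ γ) • γ) (γ + t • u) = -D.B φ γ := by
      rw [sub_eq_add_neg, ← neg_smul, hadd, haddr, haddr, B1 γ hγ, h2, h4]
      ring
    rw [h6] at h5
    convert h5 using 1
    module
  -- every root has a parallel root
  have hsimple : ∀ s ∈ D.sp u, ∃ t : ℝ, t ≠ 0 ∧ D.e s + t • u ∈ D.Rt := by
    obtain ⟨γ, hγ, hin, t, ht0, ht⟩ := d3
    set K' : Set D.S := {s | s ∈ D.sp u ∧ ∃ t : ℝ, t ≠ 0 ∧ D.e s + t • u ∈ D.Rt} with hK'
    have hein : ∀ s ∈ D.sp u, D.In (D.sp u) (D.e s) := by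
      intro s hs r hr
      unfold Rd.e
      rw [Pi.single_apply, if_neg]
      rintro rfl
      exact hr hs
    have hsub : K' ⊆ D.sp u := fun s hs => hs.1
    have hne : K'.Nonempty := by
      have h1 : ∃ s, γ s * D.B γ (D.e s) ≠ 0 := by
        by_contra hcon
        push Not at hcon
        have h2 := Bsum γ
        rw [Finset.sum_eq_zero (fun s _ => hcon s), B1 γ hγ] at h2
        exact one_ne_zero h2
      obtain ⟨s, hs⟩ := h1
      have hs1 : γ s ≠ 0 := left_ne_zero_of_mul hs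
      have hs2 : D.B γ (D.e s) ≠ 0 := right_ne_zero_of_mul hs
      have hsu : s ∈ D.sp u := by
        by_contra h
        exact hs1 (hin s h)
      refine ⟨s, hsu, 2 * t * D.B (D.e s) γ, ?_, ?_⟩
      · rw [Bs]
        exact mul_ne_zero (mul_ne_zero two_ne_zero ht0) hs2
      · exact htr γ hγ hin t ht _ (eRt s) (hein s hsu)
    have hK : K' = D.sp u := by
      apply hconn K' hsub hne
      intro s hs r hr
      by_contra hk
      obtain ⟨hsu, t', ht'0, ht'⟩ := hs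
      apply hr.2
      refine ⟨hr.1, 2 * t' * D.B (D.e r) (D.e s), ?_, ?_⟩
      · rw [Bs, Bk]
        exact mul_ne_zero (mul_ne_zero two_ne_zero ht'0) hk
      · exact htr _ (eRt s) (hein s hsu) t' ht' _ (eRt r) (hein r hr.1)
    intro s hs
    rw [← hK] at hs
    exact hs.2
  have hpar : ∀ φ ∈ D.Rt, D.In (D.sp u) φ → ∃ t : ℝ, t ≠ 0 ∧ φ + t • u ∈ D.Rt := by
    intro φ hφ hin
    obtain ⟨w, hw, s, hs, rfl⟩ := (hPAR D (D.sp u)).2.1 φ hφ hin
    obtain ⟨t, ht0, ht⟩ := hsimple s hs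
    refine ⟨t, ht0, ?_⟩
    have h1 : D.ρ w u = u := by
      apply s7
      exact Subgroup.closure_mono (Set.image_mono Set.subset_union_left) hw
    have h2 := ρRt _ ht w
    rwa [map_add, map_smul, h1] at h2
  have hu0 : u ≠ 0 := by
    rintro rfl
    obtain ⟨s, hs⟩ := s10
    exact hs rfl
  have hht' : ∀ v v' : D.V, ∀ t : ℝ, D.ht (v + t • v') = D.ht v + t * D.ht v' := by
    intro v v' t
    unfold Rd.ht
    rw [Finset.mul_sum, ← Finset.sum_add_distrib]
    rfl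
  have hfinT : ∀ φ : D.V, ∀ T : ℝ, {t : ℝ | φ + t • u ∈ D.Rt ∧ |t| ≤ T}.Finite := by
    intro φ T
    have h1 := hHGT D (|D.ht φ| + T)
    have h2 : ({ψ | ψ ∈ D.Ps ∧ D.ht ψ ≤ |D.ht φ| + T} ∪
        (fun v : D.V => -v) '' {ψ | ψ ∈ D.Ps ∧ D.ht ψ ≤ |D.ht φ| + T}).Finite :=
      h1.union (h1.image _)
    refine Set.Finite.of_finite_image (f := fun t : ℝ => φ + t • u) (h2.subset ?_) ?_
    · rintro _ ⟨t, ⟨ht, htT⟩, rfl⟩
      have h3 : |D.ht (φ + t • u)| ≤ |D.ht φ| + T := by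
        rw [hht', hht, mul_one]
        exact (abs_add_le _ _).trans (by linarith)
      rcases sgn _ ht with h4 | h4
      · left
        exact ⟨h4, (le_abs_self _).trans h3⟩
      · right
        refine ⟨-(φ + t • u), ⟨h4, ?_⟩, by simp⟩
        have h5 : D.ht (-(φ + t • u)) = -D.ht (φ + t • u) := by
          unfold Rd.ht
          rw [← Finset.sum_neg_distrib]
          rfl
        rw [h5]
        exact (neg_le_abs _).trans h3
    · intro t _ t' _ h
      have h1 : t • u = t' • u := by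
        simpa using h
      have h2 : (t - t') • u = 0 := by rw [sub_smul, h1, sub_self]
      rcases smul_eq_zero.mp h2 with h3 | h3
      · linarith
      · exact absurd h3 hu0
  have part1 : ∀ φ ∈ D.Rt, D.In (D.sp u) φ → ∃ c : ℝ, 0 < c ∧ ∀ t : ℝ, φ + t • u ∈ D.Rt ↔
      ∃ i : ℤ, t = i * c := by
    intro φ hφ hin
    obtain ⟨t, ht0, ht⟩ := hpar φ hφ hin
    exact line (S := {t : ℝ | φ + t • u ∈ D.Rt}) (by simpa using hφ)
      (fun t ht t' ht' => hcl φ hφ hin t t' ht ht') (hfinT φ) ⟨t, ht, ht0⟩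
  refine ⟨part1, fun φ => ⟨?_, ?_⟩⟩
  · rintro ⟨hφ, t, ht0, ht⟩
    refine ⟨hφ, ?_⟩
    have h1 : D.B u φ = 0 := by
      have h2 := B1 _ ht
      rw [hadd, haddr, haddr, B1 φ hφ, huu, Bs φ u] at h2
      have h3 : t * D.B u φ = 0 := by linarith
      rcases mul_eq_zero.mp h3 with h4 | h4
      · exact absurd h4 ht0
      · exact h4
    rcases s3 φ hφ h1 with h | h
    · exact h
    exfalso
    have h4 : D.B u (φ + t • u) = 0 := by
      rw [haddr, h1, huu]; ring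
    obtain ⟨s, hs⟩ := s10
    have hdis : ∀ r ∈ D.sp u, r ∉ D.perp (D.sp u) := by
      intro r hr hr'
      have := hr' r hr
      rw [D.diag] at this
      exact one_ne_zero this
    rcases s3 _ ht h4 with h5 | h5
    · apply zero
      have h6 : φ = 0 := by
        funext r
        by_cases hr : r ∈ D.sp u
        · exact h r (hdis r hr)
        · have h7 := h5 r hr
          have h8 : u r = 0 := by
            by_contra h9
            exact hr h9
          have h10 : (φ + t • u) r = φ r + t * u r := rfl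
          rw [h10, h8, mul_zero, add_zero] at h7
          exact h7
      rwa [h6] at hφ
    · have h6 := h5 s (hdis s hs)
      have h7 := h s (hdis s hs)
      have h10 : (φ + t • u) s = φ s + t * u s := rfl
      rw [h10, h7, zero_add] at h6
      rcases mul_eq_zero.mp h6 with h8 | h8
      · exact ht0 h8
      · exact hs h8
  · rintro ⟨hφ, hin⟩
    obtain ⟨c, hc, h⟩ := part1 φ hφ hin
    exact ⟨hφ, c, hc.ne', (h c).2 ⟨1, by simp⟩⟩

end Pool.CS
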