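import Pool.Agent.Work.MP_64ea0f_cs.InterfaceG1

set_option autoImplicit false

/-! # Block NRK: near in `YJ K` -/

namespace Pool.CS.NRKh40

open Pool.CS

variable (D : Rd)

/-- roots of `Fd δ` supported in `K` -/
def TK (K : Set D.S) (δ : D.V) : Set D.V := {φ | φ ∈ D.Fd δ ∧ D.In K φ}

/-- the reflections in `T` -/
def GT (T : Set D.V) : Subgroup D.W := Subgroup.closure (D.rf '' T)

/-- the bound for the change of `f` under `g` -/
def Pn (K : Set D.S) (T : Set D.V) (g : D.W) (n : ℕ) : Prop :=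
  ∀ (f : D.V →ₗ[ℝ] ℝ) (M : ℝ) (δ : D.V), 0 ≤ M → D.Af δ → T = TK D K δ → (∀ φ ∈ T, |f φ| ≤ M) →
    ∀ χ ∈ D.Fd δ, |f (D.ρ g χ) - f χ| ≤ 2 * M * n

variable {D}

lemma GT_fix (hBAS : Stmt_BAS) (hORT : Stmt_ORT) {K : Set D.S} {δ : D.V} (hδ : D.Af δ) :
    ∀ g ∈ GT D (TK D K δ), D.ρ g δ = δ := by
  obtain ⟨Bs, -, -, -, -, -, -, -, -, rfv, -⟩ := hBAS D
  intro g hg
  refine Subgroup.closure_induction (p := fun g _ => D.ρ g δ = δ) ?_ ?_ ?_ ?_ hg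
  · rintro _ ⟨φ, hφ, rfl⟩
    rw [rfv φ hφ.1.1, Bs, ((hORT D).1 δ hδ).1 φ hφ.1]
    simp
  · simp
  · intro a b _ _ ha hb
    rw [map_mul, Module.End.mul_apply, hb, ha]
  · intro a _ ha
    have h1 : D.ρ a⁻¹ (D.ρ a δ) = δ := by
      rw [← Module.End.mul_apply, ← map_mul, inv_mul_cancel, map_one, Module.End.one_apply]
    rwa [ha] at h1

lemma GT_Fd (hBAS : Stmt_BAS) (hORT : Stmt_ORT) (hTHR : Stmt_THR) {K : Set D.S} {δ : D.V}
    (hδ : D.Af δ) {g : D.W} (hg : g ∈ GT D (TK D K δ)) {χ : D.V} (hχ : χ ∈ D.Fd δ) :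
    D.ρ g χ ∈ D.Fd δ := by
  have h1 := (hTHR D δ hδ χ hχ).2.2.2.2.2.2.2.2.2 g
  have h2 := h1.2.1
  rwa [GT_fix hBAS hORT hδ g hg] at h2

lemma B_le (hBAS : Stmt_BAS) (hORT : Stmt_ORT) (hTHR : Stmt_THR) {δ : D.V} (hδ : D.Af δ) {φ ψ : D.V}
    (hφ : φ ∈ D.Fd δ) (hψ : ψ ∈ D.Fd δ) : |D.B φ ψ| ≤ 1 := by
  obtain ⟨Bs, Bl, -, -, -, B1, -⟩ := hBAS D
  obtain ⟨-, -, -, -, -, -, -, h, -⟩ := hTHR D δ hδ φ hφ
  have h0 := ((hORT D).1 δ hδ).1 φ hφ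
  rcases h ψ hψ with h1 | ⟨t, h1 | h1⟩
  · exact h1.le
  · have h2 := Bl 1 t φ δ φ
    rw [one_smul, ← h1, B1 φ hφ.1, Bs δ φ, h0] at h2
    rw [Bs, h2]; norm_num
  · have h2 := Bl (-1) t φ δ φ
    rw [neg_one_smul, ← h1, B1 φ hφ.1, Bs δ φ, h0] at h2
    rw [Bs, h2]; norm_num

lemma exP (hBAS : Stmt_BAS) (hORT : Stmt_ORT) (hTHR : Stmt_THR) (K : Set D.S) (T : Set D.V) :
    ∀ g ∈ GT D T, ∃ n : ℕ, Pn D K T g n := by
  intro g hg
  refine Subgroup.closure_induction (p := fun g _ => ∃ n : ℕ, Pn D K T g n) ?_ ?_ ?_ ?_ hg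
  · rintro _ ⟨φ, hφ, rfl⟩
    refine ⟨1, ?_⟩
    intro f M δ hM hδ hT hf χ hχ
    have hφ' : φ ∈ D.Fd δ := by rw [hT] at hφ; exact hφ.1
    have h1 := hf φ hφ
    obtain ⟨-, -, -, -, -, -, -, -, -, rfv, -⟩ := hBAS D
    rw [rfv φ hφ'.1, map_sub, map_smul, smul_eq_mul]
    have h2 : f χ - 2 * D.B χ φ * f φ - f χ = -(2 * (D.B χ φ * f φ)) := by ring
    rw [h2, abs_neg, abs_mul, abs_mul, abs_of_pos (by norm_num : (0 : ℝ) < 2)]
    have h3 := B_le hBAS hORT hTHR hδ hχ hφ'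
    have h4 : |D.B χ φ| * |f φ| ≤ 1 * M := mul_le_mul h3 h1 (abs_nonneg _) (by norm_num)
    push_cast
    linarith
  · refine ⟨0, ?_⟩
    intro f M δ hM hδ hT hf χ hχ
    simp
  · rintro a b ha hb ⟨n, hn⟩ ⟨m, hm⟩
    refine ⟨n + m, ?_⟩
    intro f M δ hM hδ hT hf χ hχ
    have h1 := hm f M δ hM hδ hT hf χ hχ
    have h2 : D.ρ b χ ∈ D.Fd δ := by
      have hb' : b ∈ GT D (TK D K δ) := by rw [← hT]; exact hb
      exact GT_Fd hBAS hORT hTHR hδ hb' hχ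
    have h3 := hn f M δ hM hδ hT hf _ h2
    rw [map_mul, Module.End.mul_apply]
    have h4 := abs_add_le (f (D.ρ a (D.ρ b χ)) - f (D.ρ b χ)) (f (D.ρ b χ) - f χ)
    rw [sub_add_sub_cancel] at h4
    push_cast
    linarith
  · rintro a ha ⟨n, hn⟩
    refine ⟨n, ?_⟩
    intro f M δ hM hδ hT hf χ hχ
    have h2 : D.ρ a⁻¹ χ ∈ D.Fd δ := by
      have ha' : a⁻¹ ∈ GT D (TK D K δ) := by rw [← hT]; exact Subgroup.inv_mem _ ha
      exact GT_Fd hBAS hORT hTHR hδ ha' hχ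
    have h3 := hn f M δ hM hδ hT hf _ h2
    have h4 : D.ρ a (D.ρ a⁻¹ χ) = χ := by
      rw [← Module.End.mul_apply, ← map_mul, mul_inv_cancel, map_one, Module.End.one_apply]
    rw [h4, abs_sub_comm] at h3
    exact h3

end Pool.CS.NRKh40

namespace Pool.CS

open Pool.CS.NRKh40

theorem nrk_thm : Stmt_BAS → Stmt_SGN → Stmt_PAR → Stmt_FPR → Stmt_VX1 → Stmt_THR → Stmt_ORT →
    Stmt_NRK := by
  classical
  intro hBAS hSGN hPAR hFPR _ hTHR hORT D K hK C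
  obtain ⟨Bs, Bl, Bk, Bsum, Bρ, B1, eRt, ρRt, negRt, rfv, -⟩ := hBAS D
  obtain ⟨hRK, -⟩ := hFPR D K hK
  obtain ⟨c0, c1, hc0, hc1⟩ := (hORT D).2.2.1
  -- the number `n0`
  obtain ⟨n0, hn0⟩ : ∃ n0 : ℕ, ∀ T : Set D.V, T ⊆ {φ | φ ∈ D.Rt ∧ D.In K φ} → ∀ g ∈ D.par K,
      g ∈ GT D T → ∃ n : ℕ, n ≤ n0 ∧ Pn D K T g n := by
    set N : Set D.V × D.W → ℕ := fun p =>
      if h : ∃ n : ℕ, Pn D K p.1 p.2 n then h.choose else 0 with hN
    have hfin1 : {T : Set D.V | T ⊆ {φ | φ ∈ D.Rt ∧ D.In K φ}}.Finite := hRK.finite_subsets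
    have hfin2 : (D.par K : Set D.W).Finite := Set.toFinite _
    have hfin := (hfin1.prod hfin2).image N
    obtain ⟨n0, hn0⟩ := hfin.bddAbove
    refine ⟨n0, fun T hT g hg hgT => ?_⟩
    have hex := exP hBAS hORT hTHR K T g hgT
    refine ⟨N (T, g), hn0 ⟨(T, g), ⟨hT, hg⟩, rfl⟩, ?_⟩
    have h1 : N (T, g) = hex.choose := by
      rw [hN]
      simp only
      rw [dif_pos hex]
    rw [h1]
    exact hex.choose_spec
  set M : ℝ := |C| + |c1| with hM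
  have hM0 : 0 ≤ M := by positivity
  refine ⟨|C| + 2 * M * n0, by positivity, ?_⟩
  rintro x hx δ hδ ⟨f, fδ, -, fx⟩
  obtain ⟨hVx, hMn⟩ := hx
  have hTs : TK D K δ ⊆ {φ | φ ∈ D.Rt ∧ D.In K φ} := fun φ hφ => ⟨hφ.1.1, hφ.2⟩
  have hδ0 : δ ≠ 0 := by
    rintro rfl
    rw [map_zero] at fδ
    exact zero_ne_one fδ
  have hInneg : ∀ φ : D.V, D.In K φ → D.In K (-φ) := by
    intro φ h s hs
    rw [Pi.neg_apply, h s hs, neg_zero]
  -- bound of `f` on `TK`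
  have hfM0 : ∀ φ ∈ TK D K δ, φ ∈ D.Ps → |f φ| ≤ M := by
    intro φ hφ hP
    obtain ⟨t1, t2, t3, t4, -, t6, -⟩ := hTHR D δ hδ φ hφ.1
    obtain ⟨hφx, hmin⟩ := hMn φ hP hφ.2
    have h1 : -C ≤ f φ := fx φ hφx hφ.1
    have h2 : φ + (-D.cst δ φ) • δ ∈ D.Rt := (t2 _).2 ⟨-1, by push_cast; ring⟩
    obtain ⟨h3, h3'⟩ := t3 _ h2
    have h4 : D.Sub (φ + (-D.cst δ φ) • δ) φ := by
      obtain ⟨-, -, -, -, -, u6, -⟩ := hTHR D δ hδ _ h3'
      have h5 : φ + (-D.cst δ φ) • δ + (D.cst δ φ) • δ = φ := by module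
      have h6 := u6 (D.cst δ φ) t1.le (by rw [h5]; exact hφ.1.1)
      rwa [h5] at h6
    have h7 : φ + (-D.cst δ φ) • δ ∉ x := by
      intro h8
      have h9 := hmin _ h8 h4
      have h10 : (-D.cst δ φ) • δ = 0 := by simpa using h9
      rcases smul_eq_zero.mp h10 with h11 | h11
      · linarith
      · exact hδ0 h11
    have h12 : -(φ + (-D.cst δ φ) • δ) ∈ x := (hVx.tot _ h2).resolve_left h7
    have h13 : -(φ + (-D.cst δ φ) • δ) ∈ D.Fd δ := (hTHR D δ hδ _ h3').2.2.2.1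
    have h14 := fx _ h12 h13
    rw [map_neg, map_add, map_smul, fδ, smul_eq_mul] at h14
    have h15 := (hc1 δ hδ φ hφ.1).2
    have h16 : D.cst δ φ ≤ |c1| := h15.trans (le_abs_self _)
    have h17 := le_abs_self C
    rw [abs_le]
    constructor
    · have := abs_nonneg c1
      linarith
    · linarith
  have hfM : ∀ φ ∈ TK D K δ, |f φ| ≤ M := by
    intro φ hφ
    rcases (hSGN D).1 φ hφ.1.1 with h | h
    · exact hfM0 φ hφ h
    · have h1 : -φ ∈ TK D K δ := ⟨(hTHR D δ hδ φ hφ.1).2.2.2.1, hInneg φ hφ.2⟩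
      have h2 := hfM0 _ h1 h
      rwa [map_neg, abs_neg] at h2
  -- the group
  set G' : Subgroup D.W := GT D (TK D K δ) with hG'
  have hGK : G' ≤ D.par K := by
    rw [hG']
    unfold GT
    rw [Subgroup.closure_le]
    rintro _ ⟨φ, hφ, rfl⟩
    exact (hPAR D K).2.2.2.1 φ hφ.1.1 hφ.2
  have hfinG : Finite G' := Finite.of_injective _ (Subgroup.inclusion_injective hGK)
  let _ : Fintype G' := Fintype.ofFinite G'
  have hcard : (0 : ℝ) < Fintype.card G' := by exact_mod_cast Fintype.card_pos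
  set f' : D.V →ₗ[ℝ] ℝ := (Fintype.card G' : ℝ)⁻¹ • ∑ g : G', f ∘ₗ D.ρ g.1 with hf'
  have hf'v : ∀ v : D.V, f' v = (Fintype.card G' : ℝ)⁻¹ * ∑ g : G', f (D.ρ g.1 v) := by
    intro v
    rw [hf', LinearMap.smul_apply, LinearMap.sum_apply, smul_eq_mul]
    rfl
  refine ⟨f', ?_, ?_, ?_⟩
  · rw [hf'v]
    have h1 : ∀ g : G', f (D.ρ g.1 δ) = 1 := by
      intro g
      rw [GT_fix hBAS hORT hδ g.1 g.2, fδ]
    rw [Finset.sum_congr rfl (fun g _ => h1 g), Finset.sum_const, Finset.card_univ, nsmul_eq_mul,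
      mul_one, inv_mul_cancel₀ hcard.ne']
  · intro φ hφ hin
    have hφT : φ ∈ TK D K δ := ⟨hφ, hin⟩
    have hr : D.rf φ ∈ G' := Subgroup.subset_closure ⟨φ, hφT, rfl⟩
    have h1 : D.ρ (D.rf φ) φ = -φ := by
      rw [rfv φ hφ.1, B1 φ hφ.1]
      module
    have h2 : f' (D.ρ (D.rf φ) φ) = f' φ := by
      rw [hf'v, hf'v]
      congr 1
      have h3 : ∀ g : G', f (D.ρ g.1 (D.ρ (D.rf φ) φ)) = f (D.ρ (g * ⟨D.rf φ, hr⟩ : G').1 φ) := by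
        intro g
        rw [Subgroup.coe_mul, map_mul, Module.End.mul_apply]
      rw [Finset.sum_congr rfl (fun g _ => h3 g)]
      exact Equiv.sum_comp (Equiv.mulRight (⟨D.rf φ, hr⟩ : G')) (fun g : G' => f (D.ρ g.1 φ))
    rw [h1, map_neg] at h2
    linarith
  · intro χ hχx hχ
    rw [hf'v]
    have h1 : ∀ g : G', -(|C| + 2 * M * n0) ≤ f (D.ρ g.1 χ) := by
      intro g
      obtain ⟨n, hn, hP⟩ := hn0 _ hTs g.1 (hGK g.2) g.2
      have h2 := hP f M δ hM0 hδ rfl hfM χ hχ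
      have h3 := fx χ hχx hχ
      have h4 : 2 * M * n ≤ 2 * M * n0 :=
        mul_le_mul_of_nonneg_left (by exact_mod_cast hn) (by linarith)
      have h5 := (abs_le.mp h2).1
      have h6 := le_abs_self C
      linarith
    have h2 : ∑ _g : G', -(|C| + 2 * M * n0) ≤ ∑ g : G', f (D.ρ g.1 χ) :=
      Finset.sum_le_sum (fun g _ => h1 g)
    rw [Finset.sum_const, Finset.card_univ, nsmul_eq_mul] at h2
    have h3 := mul_le_mul_of_nonneg_left h2 (inv_nonneg.mpr hcard.le)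
    rwa [← mul_assoc, inv_mul_cancel₀ hcard.ne', one_mul] at h3

end Pool.CS
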