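import Pool.Agent.Work.MP_64ea0f_cs.InterfaceA

set_option autoImplicit false

namespace Pool.CS

namespace HGT

/-- the simple reflections are involutions -/
theorem sig_sq (hB : Stmt_BAS) (D : Rd) (s : D.S) : D.σ s * D.σ s = 1 := by
  obtain ⟨-, -, -, -, -, -, h7, -, -, -, h11, -, -, h14, -, -⟩ := hB D
  have h1 := h11 (D.e s) (h7 s)
  rwa [h14 s] at h1

theorem rho_sq (hB : Stmt_BAS) (D : Rd) (s : D.S) (v : D.V) : D.ρ (D.σ s) (D.ρ (D.σ s) v) = v := by
  have h1 : D.ρ (D.σ s * D.σ s) v = v := by rw [sig_sq hB D s, map_one]; rfl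
  rw [map_mul] at h1
  exact h1

/-- positive roots have positive height -/
theorem ht_pos (hS : Stmt_SGN) (D : Rd) (φ : D.V) (hφ : φ ∈ D.Ps) : 0 < D.ht φ := by
  obtain ⟨-, -, h0, -⟩ := hS D
  have hne : φ ≠ 0 := by
    rintro rfl
    exact h0 hφ.1
  have h1 : ∃ s, φ s ≠ 0 := by
    by_contra hcon
    push Not at hcon
    exact hne (funext hcon)
  obtain ⟨s, hs⟩ := h1
  unfold Rd.ht
  exact Finset.sum_pos' (fun t _ => hφ.2 t) ⟨s, Finset.mem_univ s, lt_of_le_of_ne (hφ.2 s) (Ne.symm hs)⟩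

theorem ht_refl (D : Rd) (s : D.S) (v : D.V) :
    D.ht (D.ρ (D.σ s) v) = D.ht v - 2 * D.B v (D.e s) := by
  have h1 : D.ρ (D.σ s) v = v - (2 * D.B v (D.e s)) • D.e s := D.refl s v
  rw [h1]
  unfold Rd.ht
  have h2 : ∑ t, D.e s t = 1 := by
    unfold Rd.e
    simp
  simp only [Pi.sub_apply, Pi.smul_apply, smul_eq_mul]
  rw [Finset.sum_sub_distrib, ← Finset.mul_sum, h2, mul_one]

theorem exists_s (hB : Stmt_BAS) (hS : Stmt_SGN) (D : Rd) (φ : D.V) (hφ : φ ∈ D.Ps) :
    ∃ s, 1 ≤ D.ht φ * D.B φ (D.e s) := by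
  obtain ⟨-, -, -, h4, -, h6, -⟩ := hB D
  have hp := ht_pos hS D φ hφ
  by_contra hcon
  push Not at hcon
  have h1 : ∑ s, φ s * (D.ht φ * D.B φ (D.e s)) ≤ ∑ s, φ s :=
    Finset.sum_le_sum fun s _ => by
      have := hφ.2 s
      have := hcon s
      nlinarith
  have h2 : ∑ s, φ s * (D.ht φ * D.B φ (D.e s)) = D.ht φ := by
    have h3 : ∑ s, φ s * (D.ht φ * D.B φ (D.e s)) = D.ht φ * ∑ s, φ s * D.B φ (D.e s) := by
      rw [Finset.mul_sum]
      exact Finset.sum_congr rfl fun s _ => by ring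
    rw [h3, ← h4 φ, h6 φ hφ.1, mul_one]
  -- strictness
  have h5 : ∃ s, 0 < φ s := by
    by_contra hc
    push Not at hc
    have : D.ht φ ≤ 0 := Finset.sum_nonpos fun s _ => hc s
    linarith
  obtain ⟨s₀, hs₀⟩ := h5
  have h6' : ∑ s, φ s * (D.ht φ * D.B φ (D.e s)) < ∑ s, φ s := by
    apply Finset.sum_lt_sum
    · intro s _
      have := hφ.2 s
      have := hcon s
      nlinarith
    · refine ⟨s₀, Finset.mem_univ _, ?_⟩
      have := hcon s₀
      nlinarith
  rw [h2] at h6'
  exact lt_irrefl _ h6'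

end HGT

open HGT in
theorem hgt_thm (hB : Stmt_BAS) (hS : Stmt_SGN) (_hL : Stmt_LEN) : Stmt_HGT := by
  intro D C
  rcases le_or_gt C 0 with hC | hC
  · have : {φ | φ ∈ D.Ps ∧ D.ht φ ≤ C} = ∅ := by
      ext φ
      simp only [Set.mem_ofPred_eq, Set.mem_empty_iff_false, iff_false, not_and, not_le]
      intro hφ
      have := ht_pos hS D φ hφ
      linarith
    rw [this]
    exact Set.finite_empty
  · have key : ∀ n : ℕ, {φ | φ ∈ D.Ps ∧ D.ht φ ≤ C ∧ D.ht φ ≤ n * (2 / C)}.Finite := by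
      intro n
      induction n with
      | zero =>
        have : {φ | φ ∈ D.Ps ∧ D.ht φ ≤ C ∧ D.ht φ ≤ ((0 : ℕ) : ℝ) * (2 / C)} = ∅ := by
          ext φ
          simp only [Set.mem_ofPred_eq, Set.mem_empty_iff_false, iff_false, not_and, not_le]
          intro hφ _
          have := ht_pos hS D φ hφ
          simpa using this
        rw [this]
        exact Set.finite_empty
      | succ n ih =>
        have hsub : {φ | φ ∈ D.Ps ∧ D.ht φ ≤ C ∧ D.ht φ ≤ ((n + 1 : ℕ) : ℝ) * (2 / C)} ⊆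
            Set.range D.e ∪ ⋃ s : D.S, D.ρ (D.σ s) ''
              {φ | φ ∈ D.Ps ∧ D.ht φ ≤ C ∧ D.ht φ ≤ n * (2 / C)} := by
          rintro φ ⟨hφ, h1, h2⟩
          by_cases hsim : φ ∈ Set.range D.e
          · exact Or.inl hsim
          right
          obtain ⟨s, hs⟩ := exists_s hB hS D φ hφ
          have hp := ht_pos hS D φ hφ
          have hne : φ ≠ D.e s := fun h => hsim ⟨s, h.symm⟩
          obtain ⟨-, -, -, -, h5, -⟩ := hS D
          have hψ := h5 s φ hφ hne
          have hBpos : 1 / C ≤ D.B φ (D.e s) := by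
            rw [div_le_iff₀ hC]
            have hBp : 0 < D.B φ (D.e s) := by
              by_contra hcon
              push Not at hcon
              nlinarith
            nlinarith
          rw [Set.mem_iUnion]
          refine ⟨s, D.ρ (D.σ s) φ, ⟨hψ, ?_, ?_⟩, rho_sq hB D s φ⟩
          · rw [ht_refl]
            have : 0 < 1 / C := by positivity
            linarith
          · rw [ht_refl]
            push_cast at h2
            have : 2 / C = 2 * (1 / C) := by ring
            rw [this] at h2 ⊢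
            nlinarith
        refine Set.Finite.subset ?_ hsub
        apply Set.Finite.union (Set.finite_range _)
        exact Set.finite_iUnion fun s => ih.image _
    obtain ⟨n, hn⟩ := exists_nat_ge (C * (C / 2))
    refine (key n).subset ?_
    rintro φ ⟨hφ, h1⟩
    refine ⟨hφ, h1, h1.trans ?_⟩
    have : C = C * (C / 2) * (2 / C) := by field_simp
    calc C = C * (C / 2) * (2 / C) := this
      _ ≤ n * (2 / C) := mul_le_mul_of_nonneg_right hn (by positivity)

end Pool.CS
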