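import Pool.Agent.Work.MP_64ea0f_cs.InterfaceA

set_option autoImplicit false

namespace Pool.CS

namespace TIT

/-- the simple reflections are involutions -/
theorem sig_sq (hB : Stmt_BAS) (D : Rd) (s : D.S) : D.σ s * D.σ s = 1 := by
  obtain ⟨-, -, -, -, -, -, h7, -, -, -, h11, -, -, h14, -, -⟩ := hB D
  have h1 := h11 (D.e s) (h7 s)
  rwa [h14 s] at h1

theorem rho_mul (D : Rd) (w w' : D.W) (v : D.V) : D.ρ (w * w') v = D.ρ w (D.ρ w' v) := by
  rw [map_mul]; rfl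

theorem rho_one (D : Rd) (v : D.V) : D.ρ 1 v = v := by
  rw [map_one]; rfl

theorem rho_inv (D : Rd) (w : D.W) (v : D.V) : D.ρ w⁻¹ (D.ρ w v) = v := by
  rw [← rho_mul, inv_mul_cancel, rho_one]

theorem rho_inv' (D : Rd) (w : D.W) (v : D.V) : D.ρ w (D.ρ w⁻¹ v) = v := by
  rw [← rho_mul, mul_inv_cancel, rho_one]

theorem rho_sq (hB : Stmt_BAS) (D : Rd) (s : D.S) (v : D.V) : D.ρ (D.σ s) (D.ρ (D.σ s) v) = v := by
  rw [← rho_mul, sig_sq hB D s, rho_one]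

theorem refl' (D : Rd) (s : D.S) (v : D.V) :
    D.ρ (D.σ s) v = v - (2 * D.B v (D.e s)) • D.e s := D.refl s v

theorem refl_self (hB : Stmt_BAS) (D : Rd) (s : D.S) : D.ρ (D.σ s) (D.e s) = -D.e s := by
  obtain ⟨-, -, h3, -⟩ := hB D
  rw [refl', h3 s s, D.diag s]
  ext t
  simp only [Pi.sub_apply, Pi.smul_apply, smul_eq_mul, Pi.neg_apply]
  ring

/-- a functional which is nonnegative on simple roots is nonnegative on positive vectors -/
theorem nonneg (D : Rd) (y : D.V →ₗ[ℝ] ℝ) (hy : ∀ s, 0 ≤ y (D.e s)) (φ : D.V)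
    (hφ : ∀ t, 0 ≤ φ t) : 0 ≤ y φ := by
  have h1 : φ = ∑ s, φ s • D.e s := by
    ext t
    rw [Finset.sum_apply]
    unfold Rd.e
    simp [Pi.single_apply]
  rw [h1, map_sum]
  apply Finset.sum_nonneg
  intro s _
  rw [map_smul, smul_eq_mul]
  exact mul_nonneg (hφ s) (hy s)

/-- the set of negative values -/
def Ng (D : Rd) (y : D.V →ₗ[ℝ] ℝ) : Set D.V := {φ | φ ∈ D.Ps ∧ y φ < 0}

theorem mem_Tc (D : Rd) (y : D.V →ₗ[ℝ] ℝ) : y ∈ D.Tc ↔ (Ng D y).Finite := Iff.rfl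

theorem add (D : Rd) (y y' : D.V →ₗ[ℝ] ℝ) (hy : y ∈ D.Tc) (hy' : y' ∈ D.Tc) : y + y' ∈ D.Tc := by
  rw [mem_Tc] at *
  refine (hy.union hy').subset ?_
  rintro φ ⟨h1, h2⟩
  rw [LinearMap.add_apply] at h2
  rcases lt_or_ge (y φ) 0 with h3 | h3
  · exact Or.inl ⟨h1, h3⟩
  · exact Or.inr ⟨h1, by linarith⟩

theorem smul (D : Rd) (y : D.V →ₗ[ℝ] ℝ) (hy : y ∈ D.Tc) (a : ℝ) (ha : 0 ≤ a) : a • y ∈ D.Tc := by
  rw [mem_Tc] at *
  refine hy.subset ?_
  rintro φ ⟨h1, h2⟩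
  rw [LinearMap.smul_apply, smul_eq_mul] at h2
  refine ⟨h1, ?_⟩
  by_contra hcon
  push Not at hcon
  have := mul_nonneg ha hcon
  linarith

theorem comp (hL : Stmt_LEN) (D : Rd) (y : D.V →ₗ[ℝ] ℝ) (hy : y ∈ D.Tc) (w : D.W) :
    y ∘ₗ D.ρ w ∈ D.Tc := by
  obtain ⟨h1, -⟩ := hL D
  rw [mem_Tc] at *
  refine ((h1 w).union (hy.image (D.ρ w⁻¹))).subset ?_
  rintro φ ⟨h2, h3⟩
  by_cases h4 : D.ρ w φ ∈ D.Ps
  · exact Or.inr ⟨D.ρ w φ, ⟨h4, h3⟩, rho_inv D w φ⟩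
  · exact Or.inl ⟨h2, h4⟩

theorem fund (D : Rd) (y : D.V →ₗ[ℝ] ℝ) (hy : ∀ s, 0 ≤ y (D.e s)) : y ∈ D.Tc := by
  rw [mem_Tc]
  have : Ng D y = ∅ := by
    ext φ
    simp only [Ng, Set.mem_ofPred_eq, Set.mem_empty_iff_false, iff_false, not_and, not_lt]
    intro h1
    exact nonneg D y hy φ h1.2
  rw [this]
  exact Set.finite_empty

/-- the negative set after a simple reflection -/
theorem Ng_refl (hB : Stmt_BAS) (hS : Stmt_SGN) (D : Rd) (y : D.V →ₗ[ℝ] ℝ) (s : D.S)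
    (hs : y (D.e s) < 0) : Ng D (y ∘ₗ D.ρ (D.σ s)) = D.ρ (D.σ s) '' (Ng D y \ {D.e s}) := by
  obtain ⟨-, s2, -, s4, s5, -⟩ := hS D
  ext φ
  constructor
  · rintro ⟨h1, h2⟩
    have hne : φ ≠ D.e s := by
      rintro rfl
      rw [LinearMap.comp_apply, refl_self hB, map_neg] at h2
      linarith
    have h3 := s5 s φ h1 hne
    refine ⟨D.ρ (D.σ s) φ, ⟨⟨h3, h2⟩, ?_⟩, rho_sq hB D s φ⟩
    intro h4
    rw [Set.mem_singleton_iff] at h4
    have h5 : φ = -D.e s := by rw [← refl_self hB D s, ← h4, rho_sq hB]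
    rw [h5] at h1
    exact s2 _ (s4 s) h1
  · rintro ⟨ψ, ⟨⟨h1, h2⟩, h3⟩, rfl⟩
    refine ⟨s5 s ψ h1 h3, ?_⟩
    rw [LinearMap.comp_apply, rho_sq hB]
    exact h2

theorem move (hB : Stmt_BAS) (hS : Stmt_SGN) (hL : Stmt_LEN) (D : Rd) : ∀ (n : ℕ)
    (y : D.V →ₗ[ℝ] ℝ), y ∈ D.Tc → (Ng D y).ncard = n → ∃ w, ∀ s, 0 ≤ y (D.ρ w (D.e s)) := by
  obtain ⟨-, -, -, s4, -⟩ := hS D
  intro n
  induction n with
  | zero =>
    intro y hy hn
    rw [mem_Tc] at hy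
    rw [Set.ncard_eq_zero hy] at hn
    refine ⟨1, fun s => ?_⟩
    rw [rho_one]
    by_contra hcon
    push Not at hcon
    have : D.e s ∈ Ng D y := ⟨s4 s, hcon⟩
    rw [hn] at this
    exact this
  | succ n ih =>
    intro y hy hn
    by_cases hall : ∀ s, 0 ≤ y (D.e s)
    · exact ⟨1, fun s => by rw [rho_one]; exact hall s⟩
    push Not at hall
    obtain ⟨s, hs⟩ := hall
    have hy' := comp hL D y hy (D.σ s)
    have hmem : D.e s ∈ Ng D y := ⟨s4 s, hs⟩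
    have hinj : Function.Injective (D.ρ (D.σ s)) := by
      intro v v' h
      rw [← rho_sq hB D s v, h, rho_sq hB]
    have hcard : (Ng D (y ∘ₗ D.ρ (D.σ s))).ncard = n := by
      rw [Ng_refl hB hS D y s hs, Set.ncard_image_of_injective _ hinj,
        Set.ncard_sdiff_singleton_of_mem hmem, hn]
      rfl
    obtain ⟨w, hw⟩ := ih _ hy' hcard
    refine ⟨D.σ s * w, fun t => ?_⟩
    have := hw t
    rwa [LinearMap.comp_apply, ← rho_mul] at this

theorem stab (hB : Stmt_BAS) (hS : Stmt_SGN) (hL : Stmt_LEN) (D : Rd) (y : D.V →ₗ[ℝ] ℝ)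
    (hy : ∀ s, 0 ≤ y (D.e s)) : ∀ (n : ℕ) (w : D.W), D.len w = n →
    (∀ s, 0 ≤ y (D.ρ w (D.e s))) → y ∘ₗ D.ρ w = y ∧ w ∈ D.par {s | y (D.e s) = 0} := by
  obtain ⟨-, -, -, -, -, -, b7, b8, -⟩ := hB D
  obtain ⟨s1, s2, -, s4, -⟩ := hS D
  obtain ⟨-, l2, -, -, l5, l6, -⟩ := hL D
  intro n
  induction n with
  | zero =>
    intro w hw _
    rw [(l2 w).1 hw]
    refine ⟨?_, Subgroup.one_mem _⟩
    refine LinearMap.ext fun v => ?_
    rw [map_one]
    rfl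
  | succ n ih =>
    intro w hw hpos
    have hw1 : w ≠ 1 := by
      intro h
      have := (l2 w).2 h
      omega
    obtain ⟨s, hs⟩ := l6 w hw1
    have hlen : D.len (w * D.σ s) = n := by
      have := l5 w s hs
      omega
    have hneg : -D.ρ w (D.e s) ∈ D.Ps := by
      rcases s1 (D.ρ w (D.e s)) (b8 _ (b7 s) w) with h | h
      · exact absurd h hs
      · exact h
    have hz : y (D.ρ w (D.e s)) = 0 := by
      have h1 := nonneg D y hy _ hneg.2
      rw [map_neg] at h1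
      have h2 := hpos s
      linarith
    have hall : ∀ v, y (D.ρ (w * D.σ s) v) = y (D.ρ w v) := by
      intro v
      rw [rho_mul, refl', map_sub, map_smul, map_sub, map_smul, hz, smul_zero, sub_zero]
    obtain ⟨i1, i2⟩ := ih (w * D.σ s) hlen fun t => by rw [hall]; exact hpos t
    have hes : y (D.e s) = 0 := by
      have h1 : y (D.ρ (w * D.σ s) (D.e s)) = y (D.e s) := by
        have := congrArg (fun f => f (D.e s)) i1
        simpa using this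
      rw [← h1, hall, hz]
    refine ⟨?_, ?_⟩
    · refine LinearMap.ext fun v => ?_
      rw [LinearMap.comp_apply, ← hall, ← LinearMap.comp_apply, i1]
    · have h1 : w = (w * D.σ s) * D.σ s := by rw [mul_assoc, sig_sq hB, mul_one]
      rw [h1]
      exact Subgroup.mul_mem _ i2 (Subgroup.subset_closure ⟨s, hes, rfl⟩)

theorem fix (D : Rd) (y : D.V →ₗ[ℝ] ℝ) : ∀ w ∈ D.par {s | y (D.e s) = 0}, y ∘ₗ D.ρ w = y := by
  intro w hw
  unfold Rd.par at hw
  induction hw using Subgroup.closure_induction with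
  | mem x hx =>
    obtain ⟨s, hs, rfl⟩ := hx
    refine LinearMap.ext fun v => ?_
    rw [LinearMap.comp_apply, refl', map_sub, map_smul]
    have : y (D.e s) = 0 := hs
    rw [this, smul_zero, sub_zero]
  | one =>
    refine LinearMap.ext fun v => ?_
    rw [map_one]
    rfl
  | mul a b _ _ ha hb =>
    refine LinearMap.ext fun v => ?_
    rw [LinearMap.comp_apply, rho_mul, ← LinearMap.comp_apply, ha, ← LinearMap.comp_apply, hb]
  | inv a _ ha =>
    refine LinearMap.ext fun v => ?_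
    rw [LinearMap.comp_apply]
    have h1 : y (D.ρ a (D.ρ a⁻¹ v)) = y (D.ρ a⁻¹ v) := by
      rw [← LinearMap.comp_apply, ha]
    rw [← h1, rho_inv']

end TIT

open TIT in
theorem tit_thm (hB : Stmt_BAS) (hS : Stmt_SGN) (hL : Stmt_LEN) (_hP : Stmt_PAR) : Stmt_TIT := by
  intro D
  refine ⟨fun y hy y' hy' => add D y y' hy hy', fun y hy a ha => smul D y hy a ha,
    fun y hy w => comp hL D y hy w, fun y hy => fund D y hy,
    fun y hy => move hB hS hL D _ y hy rfl,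
    fun y hy w hw => stab hB hS hL D y hy _ w rfl hw, fun y w hw => fix D y w hw⟩

end Pool.CS
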